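import Pool.Agent.N437.SPC.Stm2
import Pool.Agent.Results.MP_120218_co.FewProductsLambdaSets

/-!
# Few products, many sums of dilates of subsets

Project SPC (helper437); this file by helper787.
-/

set_option autoImplicit false
set_option linter.all false

namespace Pool.Agent.N787.SPC

open Finset Pool.Agent.N437.SPC
open scoped Pointwise

theorem sum_one (B : Fin 1 → Finset ℤ) (l : Fin 1 → ℤ) (hl : ∀ i, l i ≠ 0) :
    ∏ i, ((B i).card : ℝ) ≤ (((Fintype.piFinset B).image fun b => ∑ i, l i * b i).card : ℝ) := by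
  have hinj : Set.InjOn (fun b : Fin 1 → ℤ => ∑ i, l i * b i) (Fintype.piFinset B : Set _) := by
    intro b _ b' _ h
    simp only [Fin.sum_univ_one] at h
    funext i
    have hi : i = 0 := Subsingleton.elim _ _
    rw [hi]
    exact mul_left_cancel₀ (hl 0) h
  rw [card_image_of_injOn hinj, Fintype.card_piFinset]
  push_cast
  exact le_refl _

theorem card_abs (G : Finset ℤ) : G.card ≤ 2 * (G.image fun x => |x|).card := by
  refine card_le_mul_card_image G 2 fun a _ => ?_
  have h : (G.filter fun x => |x| = a) ⊆ {a, -a} := by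
    intro x hx
    have hx' := (mem_filter.1 hx).2
    rcases abs_choice x with h | h
    · rw [h] at hx'; simp [hx']
    · rw [h] at hx'; rw [← hx']; simp
  exact (card_le_card h).trans card_le_two

theorem t_SUM : S_SUM := by
  intro k ε hk hε
  rcases Nat.lt_or_ge 1 k with hk2 | hk1
  swap
  · obtain rfl : k = 1 := le_antisymm hk1 hk
    refine ⟨1, one_pos, 1, fun n G hn _ _ B _ l hl => ?_⟩
    have h1 := sum_one B l hl
    have h2 : (1 : ℝ) ≤ (n : ℝ) ^ ε := Real.one_le_rpow (by exact_mod_cast hn) hε.le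
    calc _ ≤ _ := h1
      _ = 1 * (((Fintype.piFinset B).image fun b => ∑ i, l i * b i).card : ℝ) := (one_mul _).symm
      _ ≤ _ := mul_le_mul_of_nonneg_right h2 (Nat.cast_nonneg _)
  have hkR : (2 : ℝ) ≤ k := by exact_mod_cast hk2
  set a : ℝ := 2 - 1 / (2 * k - 1) with ha
  have h3 : (3 : ℝ) ≤ 2 * k - 1 := by linarith
  have ha1 : 1 < a := by
    have : 1 / (2 * k - 1 : ℝ) ≤ 1 / 3 := one_div_le_one_div_of_le (by norm_num) h3
    rw [ha]; linarith
  set β : ℝ := Real.log (2 * k - 1) / Real.log a with hβd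
  have hla : 0 < Real.log a := Real.log_pos ha1
  have hβ0 : 0 < β := div_pos (Real.log_pos (by linarith)) hla
  have hβ : (2 * k - 1 : ℝ) ≤ a ^ β := by
    rw [Real.rpow_def_of_pos (by linarith), hβd, mul_div_cancel₀ _ hla.ne',
      Real.exp_log (by linarith)]
  have hkpos : (0 : ℝ) < k := by linarith
  set η : ℝ := ε / (2 * k * (1 + β)) with hη
  have hη0 : 0 < η := by rw [hη]; positivity
  have hlim : Filter.Tendsto (fun n : ℕ => (n : ℝ) ^ (ε / 2)) Filter.atTop Filter.atTop :=
    (tendsto_rpow_atTop (by positivity)).comp tendsto_natCast_atTop_atTop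
  obtain ⟨n₀, hn₀⟩ := Filter.eventually_atTop.1
    (hlim.eventually_ge_atTop ((4 * (2 : ℝ) ^ β) ^ k))
  refine ⟨η, hη0, max n₀ 1, fun n G hn hG0 hGG B hB l hl => ?_⟩
  have hn1 : 1 ≤ n := (le_max_right _ _).trans hn
  have hnR : (1 : ℝ) ≤ n := by exact_mod_cast hn1
  have hnpos : (0 : ℝ) < n := by linarith
  have hn2 : (4 * (2 : ℝ) ^ β) ^ k ≤ (n : ℝ) ^ (ε / 2) := hn₀ n ((le_max_left _ _).trans hn)
  rcases G.eq_empty_or_nonempty with hGe | hGne
  · have h0 : ∏ i, ((B i).card : ℝ) = 0 := by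
      refine prod_eq_zero (mem_univ (⟨0, by omega⟩ : Fin k)) ?_
      have : B ⟨0, by omega⟩ = ∅ := by
        have := hB ⟨0, by omega⟩
        rw [hGe] at this
        exact subset_empty.1 this
      rw [this]; simp
    rw [h0]; positivity
  set P : Finset ℤ := G.image fun x => |x| with hP
  have hPne : P.Nonempty := hGne.image _
  have hPpos : ∀ b ∈ P, 0 < b := by
    intro b hb
    obtain ⟨x, hx, rfl⟩ := mem_image.1 hb
    exact abs_pos.2 fun h => hG0 (h ▸ hx)
  have hfin := (Pool.Agent.Results.MP_120218_co.FewProductsLambdaSets.result k 2 hk2 le_rfl β (by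
    have e : (((2 : ℕ) : ℝ) - ((2 : ℕ) - 1) / (2 * k - 1)) = a := by
      rw [ha]; push_cast; ring
    rw [e]; exact hβ)).2 B (fun _ => P) (fun i h => hG0 (hB i h)) (fun _ => hPne) (fun _ => hPpos)
    l hl
  have hGpos : (0 : ℝ) < G.card := by exact_mod_cast hGne.card_pos
  have hPc : (G.card : ℝ) ≤ 2 * P.card := by exact_mod_cast card_abs G
  have hPcpos : (0 : ℝ) < P.card := by linarith
  have hnη : (1 : ℝ) ≤ (n : ℝ) ^ η := Real.one_le_rpow hnR hη0.le
  -- the products of two elements of `P`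
  have h2 : ((((Fintype.piFinset fun _ : Fin 2 => P).image fun f => ∏ j, f j).card : ℝ) /
      P.card) ≤ 2 * (n : ℝ) ^ η := by
    have hs : ((Fintype.piFinset fun _ : Fin 2 => P).image fun f => ∏ j, f j) ⊆
        (G * G).image fun x => |x| := by
      intro z hz
      obtain ⟨f, hf, rfl⟩ := mem_image.1 hz
      rw [Fintype.mem_piFinset] at hf
      obtain ⟨x, hx, hx'⟩ := mem_image.1 (hf 0)
      obtain ⟨y, hy, hy'⟩ := mem_image.1 (hf 1)
      refine mem_image.2 ⟨x * y, mul_mem_mul hx hy, ?_⟩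
      rw [Fin.prod_univ_two, ← hx', ← hy', abs_mul]
    have hc : (((Fintype.piFinset fun _ : Fin 2 => P).image fun f => ∏ j, f j).card : ℝ) ≤
        (G * G).card := by
      exact_mod_cast (card_le_card hs).trans card_image_le
    rw [div_le_iff₀ hPcpos]
    calc _ ≤ _ := hc
      _ ≤ (n : ℝ) ^ η * G.card := hGG
      _ ≤ (n : ℝ) ^ η * (2 * P.card) := mul_le_mul_of_nonneg_left hPc (by positivity)
      _ = _ := by ring
  have h1 : ∀ i, (((B i * P).card : ℝ) / P.card) ≤ 4 * (n : ℝ) ^ η := by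
    intro i
    have hs : B i * P ⊆ (G * G) ∪ (G * G).image fun x => -x := by
      intro z hz
      obtain ⟨b, hb, p, hp, rfl⟩ := mem_mul.1 hz
      obtain ⟨x, hx, rfl⟩ := mem_image.1 hp
      rcases abs_choice x with h | h
      · rw [h]; exact mem_union_left _ (mul_mem_mul (hB i hb) hx)
      · rw [h]
        exact mem_union_right _ (mem_image.2 ⟨b * x, mul_mem_mul (hB i hb) hx, by ring⟩)
    have hc : ((B i * P).card : ℝ) ≤ 2 * (G * G).card := by
      have h5 : (B i * P).card ≤ (G * G).card + (G * G).card :=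
        (card_le_card hs).trans ((card_union_le _ _).trans (Nat.add_le_add_left card_image_le _))
      have h6 : ((B i * P).card : ℝ) ≤ (G * G).card + (G * G).card := by exact_mod_cast h5
      linarith
    rw [div_le_iff₀ hPcpos]
    calc _ ≤ _ := hc
      _ ≤ 2 * ((n : ℝ) ^ η * G.card) := mul_le_mul_of_nonneg_left hGG (by norm_num)
      _ ≤ 2 * ((n : ℝ) ^ η * (2 * P.card)) := by gcongr
      _ = _ := by ring
  have hprod : (∏ i : Fin k, ((B i * P).card : ℝ) / P.card *
          ((((Fintype.piFinset fun _ : Fin 2 => P).image fun f => ∏ j, f j).card : ℝ) /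
            P.card) ^ β) ≤ (n : ℝ) ^ ε := by
    calc _ ≤ ∏ i : Fin k, (4 * (n : ℝ) ^ η * (2 * (n : ℝ) ^ η) ^ β) := by
          refine prod_le_prod (fun i _ => by positivity) fun i _ => ?_
          refine mul_le_mul (h1 i) ?_ (by positivity) (by positivity)
          exact Real.rpow_le_rpow (by positivity) h2 hβ0.le
      _ = (4 * (2 : ℝ) ^ β) ^ k * (n : ℝ) ^ (ε / 2) := by
          rw [prod_const, card_univ, Fintype.card_fin, Real.mul_rpow (by norm_num) (by positivity),
            ← Real.rpow_mul hnpos.le]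
          have e1 : 4 * (n : ℝ) ^ η * ((2 : ℝ) ^ β * (n : ℝ) ^ (η * β)) =
              (4 * (2 : ℝ) ^ β) * (n : ℝ) ^ (η * (1 + β)) := by
            rw [mul_add, mul_one, Real.rpow_add hnpos]; ring
          rw [e1, mul_pow, ← Real.rpow_natCast ((n : ℝ) ^ (η * (1 + β))), ← Real.rpow_mul hnpos.le]
          congr 2
          rw [hη]; field_simp
      _ ≤ (n : ℝ) ^ (ε / 2) * (n : ℝ) ^ (ε / 2) :=
          mul_le_mul_of_nonneg_right hn2 (by positivity)
      _ = (n : ℝ) ^ ε := by rw [← Real.rpow_add hnpos]; congr 1; ring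
  refine hfin.trans ?_
  exact mul_le_mul_of_nonneg_right hprod (Nat.cast_nonneg _)

end Pool.Agent.N787.SPC

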